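import Pool.Agent.Lib_helper7.AAC.Defs
import Pool.Agent.Lib_helper7.CMN.Fourier
import Pool.Agent.Lib_helper86.CMT.LargeK

set_option autoImplicit false
set_option linter.unusedSectionVars false

/-!
# Elementary facts on CM types
-/

namespace Pool.Agent.AAC

open Finset

variable {G X : Type} [Group G] [MulAction G X] [Fintype X] {C : Ctx G X}

lemma mem_types {Φ : Finset X} : Φ ∈ types C ↔ ∀ x, x ∈ Φ ↔ C.c x ∉ Φ := by
  classical
  simp [types]

/-- a half system -/
lemma exists_half (C : Ctx G X) : ∃ O : Finset X, (∀ x, x ∈ O ↔ C.c x ∉ O) ∧ O.card = C.g := by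
  classical
  obtain ⟨O, hO⟩ := CMT.Large.exists_half (S := X) C.c C.cc C.cne
  refine ⟨O, hO, ?_⟩
  have h1 := CMT.card_half (S := X) C.c C.cc O hO
  have h2 := C.card
  omega

lemma types_eq [DecidableEq X] : types C = CMN.Types C.c := by
  ext Φ
  rw [mem_types, CMN.mem_Types]

/-- the sum over all CM types of a product over a half system -/
lemma sum_types [DecidableEq X] {O : Finset X} (hO : ∀ x, x ∈ O ↔ C.c x ∉ O) {R : Type}
    [CommRing R] (a b : X → R) :
    ∑ Φ ∈ types C, ∏ x ∈ O, (if x ∈ Φ then a x else b x) = ∏ x ∈ O, (a x + b x) := by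
  rw [types_eq]
  exact CMN.sum_types C.cc hO a b

/-- the sum of an odd function over a CM type -/
lemma sum_odd [DecidableEq X] {O : Finset X} (hO : ∀ x, x ∈ O ↔ C.c x ∉ O) {R : Type}
    [AddCommGroup R] {f : X → R} (hf : ∀ x, f (C.c x) = - f x) {Φ : Finset X}
    (hΦ : Φ ∈ types C) : ∑ x ∈ Φ, f x = ∑ x ∈ O, (if x ∈ Φ then f x else - f x) :=
  CMN.sum_odd C.cc hO hf (mem_types.1 hΦ)

lemma card_types (C : Ctx G X) : (types C).card = 2 ^ C.g := by
  classical
  obtain ⟨O, hO, hc⟩ := exists_half C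
  rw [types_eq, CMN.card_Types C.cc hO, hc]

lemma two_pow_pos' (n : ℕ) : (0 : ℝ) < 2 ^ n := by positivity

lemma Pr_eq (E : Finset X → Prop) [DecidablePred E] :
    Pr C E = (((types C).filter E).card : ℝ) / 2 ^ C.g := by
  unfold Pr
  congr!

lemma Pr_nonneg (E : Finset X → Prop) : 0 ≤ Pr C E := by
  unfold Pr
  positivity

lemma Pr_mono {E E' : Finset X → Prop} (h : ∀ Φ ∈ types C, E Φ → E' Φ) : Pr C E ≤ Pr C E' := by
  classical
  rw [Pr_eq, Pr_eq]
  apply div_le_div_of_nonneg_right _ (two_pow_pos' _).le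
  have : (types C).filter E ⊆ (types C).filter E' := by
    intro Φ hΦ
    rw [mem_filter] at hΦ ⊢
    exact ⟨hΦ.1, h Φ hΦ.1 hΦ.2⟩
  exact_mod_cast card_le_card this

lemma Pr_le_one (E : Finset X → Prop) : Pr C E ≤ 1 := by
  classical
  rw [Pr_eq, div_le_one (two_pow_pos' _)]
  have h1 : ((types C).filter E).card ≤ (types C).card := card_filter_le _ _
  rw [card_types] at h1
  exact_mod_cast h1

lemma Pr_union {ι : Type} (s : Finset ι) (E : ι → Finset X → Prop) :
    Pr C (fun Φ => ∃ i ∈ s, E i Φ) ≤ ∑ i ∈ s, Pr C (E i) := by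
  classical
  rw [Pr_eq, Finset.sum_congr rfl (fun i _ => Pr_eq (E i)), ← Finset.sum_div]
  apply div_le_div_of_nonneg_right _ (two_pow_pos' _).le
  have h1 : (types C).filter (fun Φ => ∃ i ∈ s, E i Φ) ⊆
      s.biUnion fun i => (types C).filter (E i) := by
    intro Φ hΦ
    rw [mem_filter] at hΦ
    obtain ⟨h2, i, hi, h3⟩ := hΦ
    exact mem_biUnion.2 ⟨i, hi, mem_filter.2 ⟨h2, h3⟩⟩
  exact_mod_cast (card_le_card h1).trans card_biUnion_le

/-- the number of points -/
lemma card_X (C : Ctx G X) : (Fintype.card X : ℝ) = 2 * C.g := by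
  rw [C.card]
  push_cast
  rfl

end Pool.Agent.AAC
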