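import Mathlib

set_option autoImplicit false
set_option linter.unusedSectionVars false

/-!
# Nondegenerate CM types: the setting

`G` is a finite group acting transitively on `X`, `#X = 2 g`; `c` is a fixed point free involution
of `X` commuting with `G` which is given by the element `z` of `G`.  A CM type is a subset of `X`
containing exactly one of `x`, `c x` for every `x`.
-/

namespace Pool.Agent.AAC

open Finset

/-- the setting -/
structure Ctx (G X : Type) [Group G] [MulAction G X] [Fintype X] where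
  c : X → X
  z : G
  g : ℕ
  gpos : 0 < g
  card : Fintype.card X = 2 * g
  cc : ∀ x, c (c x) = x
  cne : ∀ x, c x ≠ x
  cG : ∀ (y : G) (x : X), c (y • x) = y • c x
  hz : ∀ x : X, z • x = c x
  tr : ∀ x x' : X, ∃ y : G, y • x = x'

section module

variable {G X : Type} [Group G] [MulAction G X]

/-- odd functions with values in `F` -/
def OddF (F : Type) [CommRing F] (c : X → X) : Submodule F (X → F) where
  carrier := {f | ∀ x, f (c x) = - f x}
  add_mem' := by
    intro f f' h h' x
    rw [Pi.add_apply, Pi.add_apply, h, h']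
    ring
  zero_mem' := by intro x; simp
  smul_mem' := by
    intro a f h x
    rw [Pi.smul_apply, Pi.smul_apply, h]
    simp

/-- the representation of `G` on the odd functions, `(y f) x = f (y⁻¹ x)` -/
def rho (F G : Type) [CommRing F] [Group G] [MulAction G X] (c : X → X)
    (hcG : ∀ (y : G) (x : X), c (y • x) = y • c x) : Representation F G (OddF F c) where
  toFun y :=
    { toFun := fun f => ⟨fun x => f.1 (y⁻¹ • x), fun x => by
        show f.1 (y⁻¹ • c x) = - f.1 (y⁻¹ • x)
        rw [← hcG]
        exact f.2 _⟩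
      map_add' := by intro f f'; rfl
      map_smul' := by intro a f; rfl }
  map_one' := by
    ext f x
    simp
  map_mul' := by
    intro g h
    ext f x
    simp [mul_smul]

end module

/-- the group algebra -/
abbrev RR (F G : Type) [CommRing F] [Group G] : Type := MonoidAlgebra F G

variable {G X : Type} [Group G] [MulAction G X] [Fintype X]

/-- the odd functions as a module over the group algebra -/
def MM (F : Type) [CommRing F] (C : Ctx G X) : Type := OddF F C.c

section inst

variable (F : Type) [CommRing F] (C : Ctx G X)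

instance : AddCommGroup (MM F C) := inferInstanceAs (AddCommGroup (OddF F C.c))

instance : Module F (MM F C) := inferInstanceAs (Module F (OddF F C.c))

noncomputable instance : Module (RR F G) (MM F C) :=
  Module.compHom (OddF F C.c) (rho F G C.c C.cG).asAlgebraHom.toRingHom

instance : IsScalarTower F (RR F G) (MM F C) where
  smul_assoc a r v := by
    show (rho F G C.c C.cG).asAlgebraHom (a • r) v = a • (rho F G C.c C.cG).asAlgebraHom r v
    rw [map_smul]
    rfl

instance [Finite F] : Finite (MM F C) := inferInstanceAs (Finite (OddF F C.c))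

/-- the underlying function -/
def toFn : MM F C →ₗ[F] (X → F) := (OddF F C.c).subtype

end inst

section basic

variable {F : Type} [CommRing F] {C : Ctx G X}

lemma toFn_inj : Function.Injective (toFn F C) := fun _ _ h => Subtype.ext h

lemma toFn_odd (v : MM F C) (x : X) : toFn F C v (C.c x) = - toFn F C v x := v.2 x

lemma toFn_of (y : G) (v : MM F C) (x : X) :
    toFn F C (MonoidAlgebra.of F G y • v) x = toFn F C v (y⁻¹ • x) := by
  show ((rho F G C.c C.cG).asAlgebraHom (MonoidAlgebra.of F G y) v).1 x = _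
  rw [MonoidAlgebra.of_apply, Representation.asAlgebraHom_single, one_smul]
  rfl

lemma exists_toFn {f : X → F} (hf : ∀ x, f (C.c x) = - f x) : ∃ v : MM F C, toFn F C v = f :=
  ⟨⟨f, hf⟩, rfl⟩

/-- a submodule over `F` stable under the group is a submodule over the group algebra -/
def mkSub {V : Type} [AddCommGroup V] [Module F V] [Module (RR F G) V]
    [IsScalarTower F (RR F G) V] (p : Submodule F V)
    (h : ∀ y : G, ∀ v ∈ p, MonoidAlgebra.of F G y • v ∈ p) : Submodule (RR F G) V where
  carrier := p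
  add_mem' := p.add_mem
  zero_mem' := p.zero_mem
  smul_mem' := by
    intro r x hx
    induction r using MonoidAlgebra.induction_on with
    | of g => exact h g x hx
    | add a b ha hb =>
      rw [add_smul]
      exact p.add_mem ha hb
    | smul a b hb =>
      rw [smul_assoc]
      exact p.smul_mem a hb

lemma mem_mkSub {V : Type} [AddCommGroup V] [Module F V] [Module (RR F G) V]
    [IsScalarTower F (RR F G) V] (p : Submodule F V)
    (h : ∀ y : G, ∀ v ∈ p, MonoidAlgebra.of F G y • v ∈ p) (v : V) : v ∈ mkSub p h ↔ v ∈ p :=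
  Iff.rfl

end basic

section fin

variable (F : Type) [Field F] (C : Ctx G X)

instance instFinMM : Module.Finite F (MM F C) := inferInstanceAs (Module.Finite F (OddF F C.c))

instance instFinMM' : Module.Finite (RR F G) (MM F C) :=
  Module.Finite.of_restrictScalars_finite F (RR F G) (MM F C)

instance instFinSub (W : Submodule (RR F G) (MM F C)) : Module.Finite F W :=
  Module.Finite.of_injective (W.subtype.restrictScalars F) Subtype.val_injective

instance instFinHom (U V : Type) [AddCommGroup U] [AddCommGroup V] [Module F U] [Module F V]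
    [Module (RR F G) U] [Module (RR F G) V] [IsScalarTower F (RR F G) U]
    [IsScalarTower F (RR F G) V] [Module.Finite F U] [Module.Finite F V] :
    Module.Finite F (U →ₗ[RR F G] V) :=
  Module.Finite.of_injective (LinearMap.restrictScalarsₗ F (RR F G) U V F)
    (LinearMap.restrictScalars_injective F)

end fin

/-- the CM types -/
noncomputable def types (C : Ctx G X) : Finset (Finset X) := by
  classical exact Finset.univ.filter fun Φ => ∀ x, x ∈ Φ ↔ C.c x ∉ Φ

/-- the proportion of the CM types with the property `E` -/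
noncomputable def Pr (C : Ctx G X) (E : Finset X → Prop) : ℝ := by
  classical exact (((types C).filter E).card : ℝ) / 2 ^ C.g

/-- `Φ` is orthogonal to all functions in `N` -/
def Perp {F : Type} [CommRing F] {C : Ctx G X} (Φ : Finset X)
    (N : Submodule (RR F G) (MM F C)) : Prop := ∀ v ∈ N, ∑ x ∈ Φ, toFn F C v x = 0

/-- the subgroup of `G` acting trivially on `W` -/
def kr {F : Type} [CommRing F] {C : Ctx G X} (W : Submodule (RR F G) (MM F C)) : Subgroup G where
  carrier := {y | ∀ v ∈ W, MonoidAlgebra.of F G y • v = v}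
  one_mem' := by
    intro v _
    rw [map_one, one_smul]
  mul_mem' := by
    intro a b ha hb v hv
    rw [map_mul, mul_smul, hb v hv, ha v hv]
  inv_mem' := by
    intro a ha v hv
    have := congrArg (fun w => MonoidAlgebra.of F G a⁻¹ • w) (ha v hv)
    rw [← mul_smul, ← map_mul, inv_mul_cancel, map_one, one_smul] at this
    exact this.symm

/-- the integer valued functions in `W` -/
def lat {C : Ctx G X} (W : Submodule (RR ℚ G) (MM ℚ C)) : Submodule ℤ (X → ℤ) where
  carrier := {f | ∃ v ∈ W, ∀ x, toFn ℚ C v x = (f x : ℚ)}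
  add_mem' := by
    rintro f f' ⟨v, hv, h⟩ ⟨v', hv', h'⟩
    refine ⟨v + v', W.add_mem hv hv', fun x => ?_⟩
    rw [map_add, Pi.add_apply, h, h', Pi.add_apply]
    push_cast
    rfl
  zero_mem' := ⟨0, W.zero_mem, fun x => by simp⟩
  smul_mem' := by
    rintro a f ⟨v, hv, h⟩
    refine ⟨a • v, zsmul_mem hv a, fun x => ?_⟩
    rw [map_zsmul, Pi.smul_apply, h, Pi.smul_apply]
    simp

lemma lat_smul {C : Ctx G X} {W : Submodule (RR ℚ G) (MM ℚ C)} {f : X → ℤ} (hf : f ∈ lat W)
    (y : G) : (fun x => f (y • x)) ∈ lat W := by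
  obtain ⟨v, hv, h⟩ := hf
  refine ⟨MonoidAlgebra.of ℚ G y⁻¹ • v, W.smul_mem _ hv, fun x => ?_⟩
  rw [toFn_of, inv_inv, h]

lemma lat_odd {C : Ctx G X} {W : Submodule (RR ℚ G) (MM ℚ C)} {f : X → ℤ} (hf : f ∈ lat W)
    (x : X) : f (C.c x) = - f x := by
  obtain ⟨v, _, h⟩ := hf
  have h1 := toFn_odd v x
  rw [h, h] at h1
  exact_mod_cast h1

/-- the reductions modulo `p` of the integer valued functions in `W` -/
noncomputable def red {C : Ctx G X} (p : ℕ) (W : Submodule (RR ℚ G) (MM ℚ C)) :
    Submodule (RR (ZMod p) G) (MM (ZMod p) C) :=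
  mkSub (F := ZMod p)
    { carrier := {v | ∃ f ∈ lat W, ∀ x, toFn (ZMod p) C v x = (f x : ZMod p)}
      add_mem' := by
        rintro v v' ⟨f, hf, h⟩ ⟨f', hf', h'⟩
        refine ⟨f + f', (lat W).add_mem hf hf', fun x => ?_⟩
        rw [map_add, Pi.add_apply, h, h', Pi.add_apply]
        push_cast
        rfl
      zero_mem' := ⟨0, (lat W).zero_mem, fun x => by simp⟩
      smul_mem' := by
        rintro a v ⟨f, hf, h⟩
        obtain ⟨a', rfl⟩ := ZMod.intCast_surjective a
        refine ⟨a' • f, (lat W).smul_mem a' hf, fun x => ?_⟩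
        rw [map_smul, Pi.smul_apply, h, Pi.smul_apply]
        simp }
    (by
      rintro y v ⟨f, hf, h⟩
      refine ⟨fun x => f (y⁻¹ • x), lat_smul hf y⁻¹, fun x => ?_⟩
      rw [toFn_of, h])

lemma mem_red {C : Ctx G X} {p : ℕ} {W : Submodule (RR ℚ G) (MM ℚ C)} {v : MM (ZMod p) C} :
    v ∈ red p W ↔ ∃ f ∈ lat W, ∀ x, toFn (ZMod p) C v x = (f x : ZMod p) := Iff.rfl

/-- the submodule `p L` of `L` -/
def pMul (S : Type) [Ring S] (p : ℕ) (L : Type) [AddCommGroup L] [Module S L] : Submodule S L :=
  LinearMap.range (p • (LinearMap.id : L →ₗ[S] L))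

/-- the dimension of `W` -/
noncomputable def dd {C : Ctx G X} (W : Submodule (RR ℚ G) (MM ℚ C)) : ℕ := Module.finrank ℚ W

/-- the dimension of the endomorphism algebra of `W` -/
noncomputable def ee {C : Ctx G X} (W : Submodule (RR ℚ G) (MM ℚ C)) : ℕ :=
  Module.finrank ℚ (Module.End (RR ℚ G) W)

/-- the dimension of the space of the homomorphisms from `W` to the module of all odd functions -/
noncomputable def hh {C : Ctx G X} (W : Submodule (RR ℚ G) (MM ℚ C)) : ℕ :=
  Module.finrank ℚ (W →ₗ[RR ℚ G] MM ℚ C)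

/-- the isotypic component of `W` -/
noncomputable def ic {C : Ctx G X} (W : Submodule (RR ℚ G) (MM ℚ C)) :
    Submodule (RR ℚ G) (MM ℚ C) := isotypicComponent (RR ℚ G) (MM ℚ C) W

/-- the proportion of the CM types orthogonal to some simple submodule of `B` -/
noncomputable def PB {C : Ctx G X} (B : Submodule (RR ℚ G) (MM ℚ C)) : ℝ :=
  Pr C fun Φ => ∃ W ≤ B, IsSimpleModule (RR ℚ G) W ∧ Perp Φ W

/-- the number of the isotypic components of dimension `m` -/
noncomputable def nc (C : Ctx G X) (m : ℕ) : ℕ :=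
  Set.ncard {B : Submodule (RR ℚ G) (MM ℚ C) | B ∈ isotypicComponents (RR ℚ G) (MM ℚ C) ∧
    Module.finrank ℚ B = m}

/-- the dimension of the endomorphism algebra of the simple submodules of `B` -/
noncomputable def eB {C : Ctx G X} (B : Submodule (RR ℚ G) (MM ℚ C)) : ℕ :=
  sInf {m | ∃ W ≤ B, IsSimpleModule (RR ℚ G) W ∧ m = Module.finrank ℚ (Module.End (RR ℚ G) W)}

/-- the sum over the isotypic components which are not simple of the dimension of the
endomorphism algebra of a simple submodule -/
noncomputable def kk (C : Ctx G X) : ℕ :=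
  ∑ᶠ B ∈ {B : Submodule (RR ℚ G) (MM ℚ C) | B ∈ isotypicComponents (RR ℚ G) (MM ℚ C) ∧
    ¬ IsSimpleModule (RR ℚ G) B}, eB B

/-- distance to the nearest integer -/
noncomputable def nd (t : ℝ) : ℝ := |t - round t|

/-- the sum of `|cos (2 π (u / p + b))| ^ s` over `u` modulo `p` -/
noncomputable def ThS (p : ℕ) (s b : ℝ) : ℝ :=
  ∑ u ∈ Finset.range p, |Real.cos (2 * Real.pi * (u / p + b))| ^ s

/-- the sum of `|cos (2 π u / p)| ^ s` over `u` modulo `p` -/
noncomputable def Th (p : ℕ) (s : ℝ) : ℝ := ThS p s 0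

/-- an integral representation of `G` whose matrix entries give odd functions on `X` -/
structure MatRep (C : Ctx G X) (n : ℕ) where
  ρ : G →* Matrix (Fin n) (Fin n) ℤ
  R : X → Matrix (Fin n) (Fin n) ℤ
  x₀ : X
  hx₀ : R x₀ = 1
  hR : ∀ y x, R (y • x) = ρ y * R x
  hz : ρ C.z = -1
  span : Submodule.span ℚ (Set.range fun y : G => (ρ y).map (Int.cast : ℤ → ℚ)) = ⊤

open Matrix in
/-- first digit: `s M = 0` and `M t = 0` modulo `p` -/
def Ev1 {n p : ℕ} (s t : Fin n → ZMod p) (M : Matrix (Fin n) (Fin n) ℤ) : Prop :=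
  s ᵥ* (M.map (Int.cast : ℤ → ZMod p)) = 0 ∧ (M.map (Int.cast : ℤ → ZMod p)) *ᵥ t = 0

/-- integral lift of a vector modulo `p` -/
def lft {n p : ℕ} (s : Fin n → ZMod p) : Fin n → ℤ := fun i => ((s i).val : ℤ)

open Matrix in
/-- the integer `s A t` for the lifts of `s`, `t` -/
def bz {n p : ℕ} (s t : Fin n → ZMod p) (A : Matrix (Fin n) (Fin n) ℤ) : ℤ :=
  lft s ⬝ᵥ (A *ᵥ lft t)

/-- two digits: `s M = 0`, `M t = 0` modulo `p` and `s M t = 0` modulo `p ^ 2` -/
def Ev2 {n p : ℕ} (s t : Fin n → ZMod p) (M : Matrix (Fin n) (Fin n) ℤ) : Prop :=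
  Ev1 s t M ∧ ((p : ℤ) ^ 2 ∣ bz s t M)

namespace MatRep

variable {C : Ctx G X} {n : ℕ} (D : MatRep C n)

/-- the matrix of `y` modulo `p` -/
def rm (p : ℕ) (y : G) : Matrix (Fin n) (Fin n) (ZMod p) := (D.ρ y).map (Int.cast : ℤ → ZMod p)

/-- the sum over a CM type -/
def Msum (Φ : Finset X) : Matrix (Fin n) (Fin n) ℤ := ∑ x ∈ Φ, D.R x

/-- the weight of the phases `(s ρ(y) ξ + η ρ(y) t) / p + k s ρ(y) t / p ^ 2` -/
noncomputable def Wt [Fintype G] {p : ℕ} (s t ξ η : Fin n → ZMod p) (k : ℕ) : ℝ :=
  (∏ y : G, |Real.cos (2 * Real.pi * (((bz s ξ (D.ρ y) + bz η t (D.ρ y) : ℤ) : ℝ) / p +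
    k * (bz s t (D.ρ y) : ℝ) / p ^ 2))|) ^ ((C.g : ℝ) / Fintype.card G)

/-- the average of `‖2 s ρ(y) t / p‖ ^ 2` -/
noncomputable def Av [Fintype G] {p : ℕ} (s t : Fin n → ZMod p) : ℝ :=
  (∑ y : G, nd (2 * (bz s t (D.ρ y) : ℝ) / p) ^ 2) / Fintype.card G

end MatRep

end Pool.Agent.AAC
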