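import Pool.Agent.Lib_helper7.AAC.Basic
import Pool.Agent.Lib_helper7.CMN.Field

set_option autoImplicit false
set_option linter.unusedSectionVars false

/-!
# CM fields: the module of odd functions on the embeddings
-/

open NumberField Pool.Agent.CMT

namespace Pool.Agent.AAC

variable (K L : Type) [Field K] [NumberField K] [IsCMField K] [Field L] [NumberField L]

/-- the rational functions `f` on the embeddings of `K` into `L` which are odd under complex
conjugation: `f (s ∘ c) = - f s` -/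
def OddFn : Submodule ℚ ((K →ₐ[ℚ] L) → ℚ) where
  carrier := {f | ∀ s, f (s.comp (conjK K)) = - f s}
  add_mem' := by
    intro f f' h h' s
    rw [Pi.add_apply, Pi.add_apply, h, h']
    ring
  zero_mem' := by intro s; simp
  smul_mem' := by
    intro a f h s
    rw [Pi.smul_apply, Pi.smul_apply, h]
    simp

/-- the representation of `Gal(L/ℚ)` on the odd functions, `(τ f) s = f (τ⁻¹ ∘ s)` -/
def oddRep : Representation ℚ Gal(L/ℚ) (OddFn K L) where
  toFun τ :=
    { toFun := fun f => ⟨fun s => f.1 (((τ⁻¹ : Gal(L/ℚ)) : L →ₐ[ℚ] L).comp s), fun s =>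
        f.2 (((τ⁻¹ : Gal(L/ℚ)) : L →ₐ[ℚ] L).comp s)⟩
      map_add' := by intro f f'; rfl
      map_smul' := by intro a f; rfl }
  map_one' := by
    ext f s
    rw [inv_one]
    rfl
  map_mul' := by
    intro σ τ
    ext f s
    show f.1 _ = f.1 _
    congr 1

/-- the `ℚ[Gal(L/ℚ)]`-module of the odd functions -/
def OddMod : Type := OddFn K L

instance : AddCommGroup (OddMod K L) := inferInstanceAs (AddCommGroup (OddFn K L))

instance : Module ℚ (OddMod K L) := inferInstanceAs (Module ℚ (OddFn K L))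

noncomputable instance : Module (MonoidAlgebra ℚ Gal(L/ℚ)) (OddMod K L) :=
  Module.compHom (OddFn K L) (oddRep K L).asAlgebraHom.toRingHom

instance : IsScalarTower ℚ (MonoidAlgebra ℚ Gal(L/ℚ)) (OddMod K L) where
  smul_assoc a r v := by
    show (oddRep K L).asAlgebraHom (a • r) v = a • (oddRep K L).asAlgebraHom r v
    rw [map_smul]
    rfl

/-- the number of the isotypic components of dimension `m` -/
noncomputable def numComp (m : ℕ) : ℕ :=
  Set.ncard {B : Submodule (MonoidAlgebra ℚ Gal(L/ℚ)) (OddMod K L) |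
    B ∈ isotypicComponents (MonoidAlgebra ℚ Gal(L/ℚ)) (OddMod K L) ∧ Module.finrank ℚ B = m}

/-- the sum over the isotypic components which are not simple of the dimension of the
endomorphism algebra of a simple submodule -/
noncomputable def multComp : ℕ :=
  ∑ᶠ B ∈ {B : Submodule (MonoidAlgebra ℚ Gal(L/ℚ)) (OddMod K L) |
    B ∈ isotypicComponents (MonoidAlgebra ℚ Gal(L/ℚ)) (OddMod K L) ∧
    ¬ IsSimpleModule (MonoidAlgebra ℚ Gal(L/ℚ)) B},
    sInf {m | ∃ W ≤ B, IsSimpleModule (MonoidAlgebra ℚ Gal(L/ℚ)) W ∧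
      m = Module.finrank ℚ (Module.End (MonoidAlgebra ℚ Gal(L/ℚ)) W)}

section ctx

variable {K L} [Algebra K L] [IsGalois ℚ L]

/-- the setting of a CM field -/
noncomputable def fctx {g : ℕ} (hg : 0 < g) (hK : Module.finrank ℚ K = 2 * g) {z : Gal(L/ℚ)}
    (hz : ∀ s : K →ₐ[ℚ] L, (z : L →ₐ[ℚ] L).comp s = cj s) :
    letI := galAct K L
    Ctx Gal(L/ℚ) (K →ₐ[ℚ] L) :=
  letI := galAct K L
  { c := cj
    z := z
    g := g
    gpos := hg
    card := by rw [card_emb, hK]
    cc := cj_cj
    cne := cj_ne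
    cG := fun y x => rfl
    hz := hz
    tr := fun s t => gal_trans s t }

/-- the two modules of odd functions agree -/
theorem nc_fctx {g : ℕ} (hg : 0 < g) (hK : Module.finrank ℚ K = 2 * g) {z : Gal(L/ℚ)}
    (hz : ∀ s : K →ₐ[ℚ] L, (z : L →ₐ[ℚ] L).comp s = cj s) (m : ℕ) :
    letI := galAct K L
    nc (fctx (L := L) hg hK hz) m = numComp K L m := rfl

theorem kk_fctx {g : ℕ} (hg : 0 < g) (hK : Module.finrank ℚ K = 2 * g) {z : Gal(L/ℚ)}
    (hz : ∀ s : K →ₐ[ℚ] L, (z : L →ₐ[ℚ] L).comp s = cj s) :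
    letI := galAct K L
    kk (fctx (L := L) hg hK hz) = multComp K L := rfl

end ctx

end Pool.Agent.AAC
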