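import Mathlib
import Pool.Agent.Lib_helper86.CMT.Defs

set_option autoImplicit false

/-!
# The odd functions on the embeddings of a CM field, as a representation of the Galois group

`K` is a CM field, `L` a number field; `Gal(L/ℚ)` acts on the rational functions on `Hom(K, L)`.
-/

open NumberField Pool.Agent.CMT

namespace Pool.Agent.AAC

variable {K L : Type} [Field K] [NumberField K] [Field L] [NumberField L]

/-- `W` is a subrepresentation of the space of the odd functions: its elements `f` satisfy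
`f (s ∘ c) = - f s` for all `s`, where `c` is the complex conjugation of `K`, and `W` is stable
under `Gal(L/ℚ)` -/
def IsOddRep [IsCMField K] (W : Submodule ℚ ((K →ₐ[ℚ] L) → ℚ)) : Prop :=
  ∀ f ∈ W, (∀ s, f (s.comp (conjK K)) = - f s) ∧
    ∀ τ : Gal(L/ℚ), (fun s => f ((τ : L →ₐ[ℚ] L).comp s)) ∈ W

/-- `W` is an irreducible subrepresentation of the space of the odd functions -/
def IsIrr [IsCMField K] (W : Submodule ℚ ((K →ₐ[ℚ] L) → ℚ)) : Prop :=
  IsOddRep W ∧ W ≠ ⊥ ∧ ∀ W' ≤ W, IsOddRep W' → W' = ⊥ ∨ W' = W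

/-- the linear map `T` on functions commutes with the Galois group -/
def Commutes (T : ((K →ₐ[ℚ] L) → ℚ) →ₗ[ℚ] ((K →ₐ[ℚ] L) → ℚ)) : Prop :=
  ∀ (τ : Gal(L/ℚ)) f, T (fun s => f ((τ : L →ₐ[ℚ] L).comp s)) =
    fun s => T f ((τ : L →ₐ[ℚ] L).comp s)

/-- `B` is an isotypic component of the space of the odd functions: the sum of all images of an
irreducible subrepresentation `W` (they are `0` or isomorphic to `W`) -/
def IsComponent [IsCMField K] (B : Submodule ℚ ((K →ₐ[ℚ] L) → ℚ)) : Prop :=
  ∃ W, IsIrr W ∧ B = Submodule.span ℚ {f | ∃ T, Commutes T ∧ ∃ w ∈ W, f = T w}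

/-- the space of all `T w`, where the linear map `T` commutes with the Galois group and maps `W`
to itself.  For an irreducible `W` and `w ≠ 0` in `W` its dimension is the dimension of the division
algebra `End(W)` of all endomorphisms of the representation `W`. -/
def endOrbit (W : Submodule ℚ ((K →ₐ[ℚ] L) → ℚ)) (w : (K →ₐ[ℚ] L) → ℚ) :
    Submodule ℚ ((K →ₐ[ℚ] L) → ℚ) :=
  Submodule.span ℚ {f | ∃ T, Commutes T ∧ (∀ v ∈ W, T v ∈ W) ∧ f = T w}

variable (K L)

/-- the number of the isotypic components of dimension `m` -/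
noncomputable def numComponents [IsCMField K] (m : ℕ) : ℕ :=
  Nat.card {B : Submodule ℚ ((K →ₐ[ℚ] L) → ℚ) // IsComponent B ∧ Module.finrank ℚ B = m}

/-- the sum, over the isotypic components `B` which are not irreducible, of the dimension of
`End(W)`, where `W` is an irreducible subrepresentation of `B` -/
noncomputable def sumEnd [IsCMField K] : ℕ :=
  ∑ᶠ B : {B : Submodule ℚ ((K →ₐ[ℚ] L) → ℚ) // IsComponent B ∧ ¬ IsIrr B},
    sInf {m | ∃ W ≤ B.1, ∃ w ∈ W, IsIrr W ∧ w ≠ 0 ∧ m = Module.finrank ℚ (endOrbit W w)}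

end Pool.Agent.AAC
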